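import Pool.Agent.Y649.DG.Stm
import Mathlib.Algebra.MvPolynomial.Degrees

set_option autoImplicit false

/-! # DG-ZERO: zero patterns of polynomials -/

namespace Pool.Agent.Y350.DGF

open Finset MvPolynomial

theorem zero : Pool.Agent.Y649.DG.S_ZERO := by
  intro K _ Y _ σ _ P d hd
  classical
  set Pt : Set (Set Y) := Set.range fun (θ : σ → K) => {v : Y | eval θ (P v) ≠ 0} with hPt
  set D : ℕ := Fintype.card Y * d with hD
  haveI : Fintype Pt := (Set.toFinite Pt).fintype
  have hth : ∀ p : Pt, ∃ θ : σ → K, {v : Y | eval θ (P v) ≠ 0} = p.1 := fun p => p.2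
  choose θ hθ using hth
  set g : Pt → MvPolynomial σ K := fun p => ∏ v ∈ univ.filter (fun v => v ∈ p.1), P v with hg
  have hgdeg : ∀ p, (g p).totalDegree ≤ D := by
    intro p
    calc (g p).totalDegree ≤ ∑ v ∈ univ.filter (fun v => v ∈ p.1), (P v).totalDegree :=
          totalDegree_finset_prod _ _
      _ ≤ ∑ _v ∈ univ.filter (fun v => v ∈ p.1), d := sum_le_sum fun v _ => hd v
      _ = (univ.filter (fun v => v ∈ p.1)).card * d := by rw [sum_const, smul_eq_mul]
      _ ≤ Fintype.card Y * d := Nat.mul_le_mul_right _ (card_le_univ _)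
  -- evaluation
  have hev : ∀ p q : Pt, eval (θ p) (g q) ≠ 0 ↔ q.1 ⊆ p.1 := by
    intro p q
    rw [hg]
    simp only [map_prod]
    rw [prod_ne_zero_iff]
    constructor
    · intro h v hv
      have h1 := h v (mem_filter.2 ⟨mem_univ v, hv⟩)
      rw [← hθ p]
      exact h1
    · intro h v hv
      have h1 := h (mem_filter.1 hv).2
      rw [← hθ p] at h1
      exact h1
  -- exponents
  set ex : (σ → Fin (D + 1)) → (σ →₀ ℕ) :=
    fun w => Finsupp.equivFunOnFinite.symm fun i => (w i : ℕ) with hex
  set L : (Pt → K) →ₗ[K] ((σ → Fin (D + 1)) → K) :=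
    { toFun := fun c w => ∑ p, c p * coeff (ex w) (g p)
      map_add' := by
        intro c c'
        funext w
        simp only [Pi.add_apply, add_mul, sum_add_distrib]
      map_smul' := by
        intro r c
        funext w
        simp only [Pi.smul_apply, smul_eq_mul, RingHom.id_apply, mul_sum, mul_assoc] } with hL
  have hLinj : Function.Injective L := by
    rw [← LinearMap.ker_eq_bot, LinearMap.ker_eq_bot']
    intro c hc
    have hG : ∑ p, C (c p) * g p = 0 := by
      ext m
      rw [coeff_sum, coeff_zero]
      simp only [coeff_C_mul]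
      by_cases hm : ∀ i, m i < D + 1
      · have h1 := congrFun hc fun i => ⟨m i, hm i⟩
        have h2 : ex (fun i => ⟨m i, hm i⟩) = m := by
          ext i
          rfl
        have h3 : ∑ p, c p * coeff (ex fun i => ⟨m i, hm i⟩) (g p) = 0 := h1
        rw [h2] at h3
        exact h3
      · push Not at hm
        obtain ⟨i, hi⟩ := hm
        refine sum_eq_zero fun p _ => ?_
        have h4 : coeff m (g p) = 0 := by
          by_contra h5
          have h6 := le_totalDegree (mem_support_iff.2 h5)
          have h7 := hgdeg p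
          rw [Finsupp.sum_fintype _ _ (fun _ => rfl)] at h6
          have h8 : m i ≤ ∑ j, m j := single_le_sum (fun j _ => Nat.zero_le (m j)) (mem_univ i)
          omega
        rw [h4, mul_zero]
    by_contra hne
    have hne' : (univ.filter fun p => c p ≠ 0).Nonempty := by
      by_contra hem
      rw [not_nonempty_iff_eq_empty, filter_eq_empty_iff] at hem
      apply hne
      funext p
      exact not_not.1 (hem (mem_univ p))
    obtain ⟨p, hp, hmin⟩ := exists_min_image _ (fun p : Pt => p.1.ncard) hne'
    have hp' := (mem_filter.1 hp).2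
    have h9 := congrArg (eval (θ p)) hG
    rw [map_sum, map_zero, sum_eq_single p] at h9
    · rw [map_mul, eval_C] at h9
      rcases mul_eq_zero.1 h9 with h10 | h10
      · exact hp' h10
      · exact (hev p p).2 (subset_refl _) h10
    · intro q _ hq
      rw [map_mul, eval_C]
      by_contra h11
      have h12 := left_ne_zero_of_mul h11
      have h13 := (hev p q).1 (right_ne_zero_of_mul h11)
      have h14 := hmin q (mem_filter.2 ⟨mem_univ q, h12⟩)
      have h15 : q.1 ⊂ p.1 := lt_of_le_of_ne h13 fun h => hq (Subtype.ext h)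
      have h16 := Set.ncard_lt_ncard h15 (Set.toFinite _)
      omega
    · intro h
      exact absurd (mem_univ p) h
  have hfin := LinearMap.finrank_le_finrank_of_injective hLinj
  rw [Module.finrank_fintype_fun_eq_card, Module.finrank_fintype_fun_eq_card,
    Fintype.card_fun, Fintype.card_fin] at hfin
  have hcard : Pt.ncard = Fintype.card Pt := by
    rw [← Nat.card_coe_set_eq, Nat.card_eq_fintype_card]
  rw [hcard]
  exact hfin

end Pool.Agent.Y350.DGF
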