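import Pool.Agent.Y649.DG.Stm
import Mathlib.LinearAlgebra.Matrix.SchurComplement
import Mathlib.LinearAlgebra.Matrix.ToLinearEquiv

set_option autoImplicit false

/-! # DG-SCHUR: perturbations on few rows -/

namespace Pool.Agent.Y350.DGF

open Matrix

theorem schur : Pool.Agent.Y649.DG.S_SCHUR := by
  intro K _ m U A
  classical
  set es : ({a // a ∈ U} ⊕ {a // ¬ a ∈ U}) ≃ Fin m := Equiv.sumCompl (fun a => a ∈ U) with hes
  set N : Matrix {a // ¬ a ∈ U} ({a // a ∈ U} ⊕ {a // ¬ a ∈ U}) K :=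
    A.submatrix (fun a => (a : Fin m)) es with hN
  set AU : Matrix {a // a ∈ U} ({a // a ∈ U} ⊕ {a // ¬ a ∈ U}) K :=
    A.submatrix (fun a => (a : Fin m)) es with hAU
  have hdec : ∀ B : Matrix (Fin m) (Fin m) K, (∀ a, a ∉ U → ∀ b, B a b = 0) →
      (A + B).det = (fromRows (AU + B.submatrix (fun a : {a // a ∈ U} => (a : Fin m)) es) N).det := by
    intro B hB
    rw [← det_submatrix_equiv_self es (A + B)]
    congr 1
    ext a b
    rcases a with a | a
    · rfl
    · show A a.1 (es b) + B a.1 (es b) = A a.1 (es b)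
      rw [hB a.1 a.2, add_zero]
  by_cases hs : Function.Surjective (fun v => N *ᵥ v)
  · -- a right inverse and a basis of the kernel
    have hs' : LinearMap.range N.mulVecLin = ⊤ := LinearMap.range_eq_top.2 hs
    obtain ⟨g, hg⟩ := LinearMap.exists_rightInverse_of_surjective N.mulVecLin hs'
    have hrk := LinearMap.finrank_range_add_finrank_ker N.mulVecLin
    rw [hs', finrank_top, Module.finrank_fintype_fun_eq_card, Module.finrank_fintype_fun_eq_card,
      Fintype.card_sum] at hrk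
    have hker : Module.finrank K ({a // a ∈ U} → K) =
        Module.finrank K (LinearMap.ker N.mulVecLin) := by
      rw [Module.finrank_fintype_fun_eq_card]
      omega
    set ke : ({a // a ∈ U} → K) ≃ₗ[K] LinearMap.ker N.mulVecLin :=
      LinearEquiv.ofFinrankEq _ _ hker
    set k : ({a // a ∈ U} → K) →ₗ[K] (({a // a ∈ U} ⊕ {a // ¬ a ∈ U}) → K) :=
      (LinearMap.ker N.mulVecLin).subtype ∘ₗ ke.toLinearMap with hk
    set Q1 : Matrix ({a // a ∈ U} ⊕ {a // ¬ a ∈ U}) {a // a ∈ U} K := LinearMap.toMatrix' k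
      with hQ1
    set Q2 : Matrix ({a // a ∈ U} ⊕ {a // ¬ a ∈ U}) {a // ¬ a ∈ U} K := LinearMap.toMatrix' g
      with hQ2
    have hk1 : ∀ v, Q1 *ᵥ v = k v := fun v => by rw [hQ1, LinearMap.toMatrix'_mulVec]
    have hg1 : ∀ v, Q2 *ᵥ v = g v := fun v => by rw [hQ2, LinearMap.toMatrix'_mulVec]
    have hNk : ∀ v, N *ᵥ (k v) = 0 := fun v => (ke v).2
    have hNg : ∀ v, N *ᵥ (g v) = v := fun v => LinearMap.congr_fun hg v
    have hNQ1 : N * Q1 = 0 := by
      apply Matrix.ext_of_mulVec_single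
      intro i
      rw [← mulVec_mulVec, hk1, hNk, zero_mulVec]
    have hNQ2 : N * Q2 = 1 := by
      apply Matrix.ext_of_mulVec_single
      intro i
      rw [← mulVec_mulVec, hg1, hNg, one_mulVec]
    set Q : Matrix ({a // a ∈ U} ⊕ {a // ¬ a ∈ U}) ({a // a ∈ U} ⊕ {a // ¬ a ∈ U}) K :=
      fromCols Q1 Q2 with hQ
    have hQ0 : Q.det ≠ 0 := by
      intro h0
      obtain ⟨v, hv, hQv⟩ := exists_mulVec_eq_zero_iff.2 h0
      apply hv
      have hv2 : v = Sum.elim (v ∘ Sum.inl) (v ∘ Sum.inr) := (Sum.elim_comp_inl_inr v).symm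
      rw [hv2, hQ, fromCols_mulVec_sumElim, hk1, hg1] at hQv
      have h1 := congrArg (fun w => N *ᵥ w) hQv
      simp only [mulVec_add, hNk, hNg, zero_add, mulVec_zero] at h1
      rw [h1, map_zero, add_zero] at hQv
      have h2 : ke (v ∘ Sum.inl) = 0 := Subtype.ext hQv
      have h3 : v ∘ Sum.inl = 0 := (LinearEquiv.map_eq_zero_iff ke).1 h2
      rw [hv2, h1, h3]
      funext i
      rcases i with i | i <;> rfl
    refine ⟨Q.det⁻¹, AU * Q1, Q1.submatrix es.symm id, fun B hB => ?_⟩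
    rw [hdec B hB]
    set X := AU + B.submatrix (fun a : {a // a ∈ U} => (a : Fin m)) es with hX
    have h1 : (fromRows X N * Q).det = (X * Q1).det := by
      rw [hQ, fromRows_mul_fromCols, hNQ1, hNQ2, det_fromBlocks_zero₂₁, det_one, mul_one]
    rw [det_mul] at h1
    have h2 : X * Q1 = AU * Q1 + (B.submatrix (fun a : U => (a : Fin m)) id) *
        Q1.submatrix es.symm id := by
      rw [hX, Matrix.add_mul]
      congr 1
      have h3 := submatrix_mul_equiv (B.submatrix (fun a : {a // a ∈ U} => (a : Fin m)) id)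
        (Q1.submatrix es.symm id) id es id
      have h4 : (Q1.submatrix es.symm id).submatrix es id = Q1 := by
        ext i j
        simp
      rw [h4] at h3
      exact h3
    rw [← h2, ← h1]
    field_simp
  · refine ⟨0, 0, 0, fun B hB => ?_⟩
    rw [zero_mul, hdec B hB]
    by_contra h0
    apply hs
    intro w
    set X := fromRows (AU + B.submatrix (fun a : {a // a ∈ U} => (a : Fin m)) es) N with hX
    set y : ({a // a ∈ U} ⊕ {a // ¬ a ∈ U}) → K := Sum.elim 0 w with hy
    refine ⟨X⁻¹ *ᵥ y, ?_⟩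
    have h1 : X *ᵥ (X⁻¹ *ᵥ y) = y := by
      rw [mulVec_mulVec, mul_nonsing_inv _ (isUnit_iff_ne_zero.2 h0), one_mulVec]
    have h2 : X *ᵥ (X⁻¹ *ᵥ y) = Sum.elim
        ((AU + B.submatrix (fun a : {a // a ∈ U} => (a : Fin m)) es) *ᵥ
          (X⁻¹ *ᵥ y)) (N *ᵥ (X⁻¹ *ᵥ y)) :=
      fromRows_mulVec _ _ _
    rw [h1] at h2
    funext i
    exact (congrFun h2 (Sum.inr i)).symm

end Pool.Agent.Y350.DGF
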